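import Pool.Agent.R755.Xp.Vol3

/-!
# Maximal central sections of the cross-polytope through a facet barycenter
-/

set_option autoImplicit false

namespace Pool.Agent.Results.MP_84210a_gt.MaximalSections

open MeasureTheory Set

/-- The cross-polytope: the closed unit ball of the `ℓ₁` norm. -/
def crossPolytope (n : ℕ) : Set (EuclideanSpace ℝ (Fin n)) := {x | ∑ i, |x i| ≤ 1}

/-- The hyperplane `H_a` orthogonal to `a`. -/
def hyperplane {n : ℕ} (a : EuclideanSpace ℝ (Fin n)) : Set (EuclideanSpace ℝ (Fin n)) :=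
  {x | inner ℝ a x = 0}

/-- `V(a)`: the `(n-1)`-dimensional volume of the section of the cross-polytope by `H_a`
(`μHE[d]` is Mathlib's `d`-dimensional Hausdorff measure, normalised so that it is Lebesgue
measure on `d`-dimensional Euclidean spaces). -/
noncomputable def V {n : ℕ} (a : EuclideanSpace ℝ (Fin n)) : ENNReal :=
  μHE[n - 1] (crossPolytope n ∩ hyperplane a)

/-- The set `𝓜` of unit vectors with coordinate sum zero. -/
def M (n : ℕ) : Set (EuclideanSpace ℝ (Fin n)) := {a | ‖a‖ = 1 ∧ ∑ i, a i = 0}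

/-- `u = (e₁ - e₂)/√2`. -/
noncomputable def u (n : ℕ) (hn : 2 ≤ n) : EuclideanSpace ℝ (Fin n) :=
  (1 / Real.sqrt 2) • (EuclideanSpace.single ⟨0, by omega⟩ (1 : ℝ) -
    EuclideanSpace.single ⟨1, by omega⟩ (1 : ℝ))

/-- `w_n = (1,…,1,1-n)/√(n(n-1))`. -/
noncomputable def w (n : ℕ) : EuclideanSpace ℝ (Fin n) :=
  (1 / Real.sqrt (n * (n - 1))) •
    (WithLp.toLp 2 (fun i : Fin n => if (i : ℕ) + 1 = n then (1 - n : ℝ) else 1))

open Pool.Agent.R755.Xp in
theorem V_eq {n : ℕ} (a : EuclideanSpace ℝ (Fin n)) : V a = Pool.Agent.R755.Xp.V n a := by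
  unfold V Pool.Agent.R755.Xp.V
  congr 1
  ext x
  simp only [crossPolytope, hyperplane, mem_inter_iff, mem_ofPred_eq, PiLp.inner_apply]
  have : ∀ i, inner ℝ (a i) (x i) = a i * x i := fun i => by simp [mul_comm]
  simp only [this]

theorem norm_one_iff {n : ℕ} (a : EuclideanSpace ℝ (Fin n)) :
    ‖a‖ = 1 ↔ ∑ i, a i ^ 2 = 1 := by
  rw [← EuclideanSpace.real_norm_sq_eq]
  constructor
  · intro h; rw [h, one_pow]
  · intro h
    have h0 := norm_nonneg a
    nlinarith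

open Pool.Agent.R755.Xp in
theorem u_spec (N : ℕ) : u (N + 2) (by omega) ∈ M (N + 2) ∧
    I (fun i => u (N + 2) (by omega) i) = Fc N 0 := by
  set c : ℝ := 1 / Real.sqrt 2 with hc
  have hc0 : 0 < c := by positivity
  have hc2 : c ^ 2 = 1 / 2 := by
    rw [hc, div_pow, Real.sq_sqrt (by norm_num)]; norm_num
  have h01 : (0 : Fin (N + 2)) ≠ 1 := by
    intro h
    have := congrArg Fin.val h
    simp at this
  have hu : ∀ i : Fin (N + 2), u (N + 2) (by omega) i = if i = 0 then c else if i = 1 then -c else 0 := by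
    intro i
    have e0 : (⟨0, by omega⟩ : Fin (N + 2)) = 0 := rfl
    have e1 : (⟨1, by omega⟩ : Fin (N + 2)) = 1 := by ext; simp
    unfold u
    rw [e0, e1, ← hc]
    simp only [PiLp.smul_apply, PiLp.sub_apply, EuclideanSpace.single_apply, smul_eq_mul]
    by_cases hi0 : i = 0
    · subst hi0; simp [h01]
    · by_cases hi1 : i = 1
      · subst hi1; simp [h01.symm]
      · simp [hi0, hi1]
  have hu0 : u (N + 2) (by omega) 0 = c := by rw [hu]; simp
  have hu1 : u (N + 2) (by omega) 1 = -c := by rw [hu]; simp [h01.symm]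
  obtain ⟨e1, e2, e3⟩ := I_eq_G (N := N) (a := fun i => u (N + 2) (by omega) i) (by simp)
    (i := 0) (k := 1) h01 (q := 0)
    (fun l h0 h1 => by rw [hu]; simp [h0, h1]) (by rw [hu0, hu1]; ring)
  rw [hu0] at e1 e3
  have hone : (N:ℝ) * 0 ^ 2 + c ^ 2 + (c + N * 0) ^ 2 = 1 := by
    have : (N:ℝ) * 0 ^ 2 + c ^ 2 + (c + N * 0) ^ 2 = 2 * c ^ 2 := by ring
    rw [this, hc2]; norm_num
  refine ⟨⟨(norm_one_iff _).2 (e3.trans hone), e2⟩, ?_⟩
  rw [e1, G_eq hc0 hone, zero_div]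

open Pool.Agent.R755.Xp in
theorem w_spec (N : ℕ) : w (N + 2) ∈ M (N + 2) ∧
    I (fun i => w (N + 2) i) = Fc N 1 := by
  set c : ℝ := 1 / Real.sqrt (((N + 2 : ℕ) : ℝ) * (((N + 2 : ℕ) : ℝ) - 1)) with hc
  have hpos : (0:ℝ) < ((N + 2 : ℕ) : ℝ) * (((N + 2 : ℕ) : ℝ) - 1) := by
    push_cast
    have : (0:ℝ) ≤ N := Nat.cast_nonneg N
    nlinarith
  have hc0 : 0 < c := by
    have := Real.sqrt_pos.2 hpos
    positivity
  have hc2 : c ^ 2 = 1 / (((N:ℝ) + 2) * ((N:ℝ) + 1)) := by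
    rw [hc, div_pow, Real.sq_sqrt hpos.le]
    push_cast
    ring
  have h0l : (0 : Fin (N + 2)) ≠ Fin.last (N + 1) := by
    intro h
    have := congrArg Fin.val h
    simp at this
  have hlast : ∀ i : Fin (N + 2), ((i : ℕ) + 1 = N + 2) ↔ i = Fin.last (N + 1) := by
    intro i
    rw [Fin.ext_iff, Fin.val_last]
    omega
  have hw : ∀ i : Fin (N + 2), w (N + 2) i = if i = Fin.last (N + 1) then -(c + N * c) else c := by
    intro i
    unfold w
    rw [← hc]
    simp only [PiLp.smul_apply, smul_eq_mul, hlast]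
    by_cases hi : i = Fin.last (N + 1)
    · rw [if_pos hi, if_pos hi]; push_cast; ring
    · rw [if_neg hi, if_neg hi]; ring
  have hw0 : w (N + 2) 0 = c := by rw [hw]; simp [h0l]
  have hwl : w (N + 2) (Fin.last (N + 1)) = -(c + N * c) := by rw [hw]; simp
  obtain ⟨e1, e2, e3⟩ := I_eq_G (N := N) (a := fun i => w (N + 2) i) (by simp)
    (i := 0) (k := Fin.last (N + 1)) h0l (q := c)
    (fun l h0 h1 => by rw [hw]; simp [h1]) (by rw [hw0, hwl])
  rw [hw0] at e1 e3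
  have hone : (N:ℝ) * c ^ 2 + c ^ 2 + (c + N * c) ^ 2 = 1 := by
    have : (N:ℝ) * c ^ 2 + c ^ 2 + (c + N * c) ^ 2 = ((N + 1) * (N + 2)) * c ^ 2 := by ring
    rw [this, hc2]
    have : (0:ℝ) ≤ N := Nat.cast_nonneg N
    field_simp
  refine ⟨⟨(norm_one_iff _).2 (e3.trans hone), e2⟩, ?_⟩
  rw [e1, G_eq hc0 hone, div_self hc0.ne']

open Pool.Agent.R755.Xp in
theorem V_le {n : ℕ} (hn : 2 ≤ n) {a b : EuclideanSpace ℝ (Fin n)} (ha : a ∈ M n) (hb : b ∈ M n)
    (h : I (fun i => a i) ≤ I (fun i => b i)) : V a ≤ V b := by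
  rw [V_eq, V_eq, V_formula hn ha.1, V_formula hn hb.1]
  refine ENNReal.ofReal_le_ofReal ?_
  have hg : 0 < Real.Gamma (((n - 1 : ℕ) : ℝ) + 1) := Real.Gamma_pos_of_pos (by positivity)
  have := Real.pi_pos
  gcongr

/-- The conjecture is true: for `2 ≤ n ≤ 5` the section orthogonal to `u = (e₁-e₂)/√2` has the
largest volume among the central sections through the facet barycenter, and for `n ≥ 6` the
section orthogonal to `w_n = (1,…,1,1-n)/√(n(n-1))` has the largest volume. -/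
theorem result :
    (∀ (n : ℕ) (hn : 2 ≤ n), n ≤ 5 → u n hn ∈ M n ∧ ∀ a ∈ M n, V a ≤ V (u n hn)) ∧
    (∀ n : ℕ, 6 ≤ n → w n ∈ M n ∧ ∀ a ∈ M n, V a ≤ V (w n)) := by
  constructor
  · intro n hn h5
    obtain ⟨N, rfl⟩ : ∃ N, n = N + 2 := ⟨n - 2, by omega⟩
    obtain ⟨hu, hI⟩ := u_spec N
    refine ⟨hu, fun a ha => V_le hn ha hu ?_⟩
    rw [hI]
    refine (Pool.Agent.R755.Xp.I_le_max (N := N) (by simp) ha.2
      ((norm_one_iff a).1 ha.1)).trans (max_le le_rfl ?_)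
    exact Pool.Agent.R755.Xp.Fc_small (by omega)
  · intro n h6
    obtain ⟨N, rfl⟩ : ∃ N, n = N + 2 := ⟨n - 2, by omega⟩
    obtain ⟨hw, hI⟩ := w_spec N
    refine ⟨hw, fun a ha => V_le (by omega) ha hw ?_⟩
    rw [hI]
    refine (Pool.Agent.R755.Xp.I_le_max (N := N) (by simp) ha.2
      ((norm_one_iff a).1 ha.1)).trans (max_le ?_ le_rfl)
    exact (Pool.Agent.R755.Xp.Fc_large (by omega)).le

end Pool.Agent.Results.MP_84210a_gt.MaximalSections
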